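import Mathlib
import Pool.Agent.Helper1.SW.Final

set_option autoImplicit false

namespace Pool.Agent.Results.MP_88e1a1_al.OddOrder

/-- (1) For every odd `n`, every matrix in `SU(n)` equals `[[x,y],[x^2,y^2]]` for some `x, y` in
`SU(n)`. (2) For every `n`, a matrix in `SU(n)` having an odd number of eigenvalues (with
multiplicity) with product one equals `[[x,y],[x^2,y^2]]` for some `x, y` in `SU(n)`. -/
theorem result :
    (∀ n : ℕ, Odd n →
      ∀ g : Matrix (Fin n) (Fin n) ℂ, g ∈ Matrix.specialUnitaryGroup (Fin n) ℂ →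
        ∃ x y : Matrix (Fin n) (Fin n) ℂ,
          x ∈ Matrix.specialUnitaryGroup (Fin n) ℂ ∧
          y ∈ Matrix.specialUnitaryGroup (Fin n) ℂ ∧
          (x * y * star x * star y) * (x ^ 2 * y ^ 2 * star (x ^ 2) * star (y ^ 2)) *
            star (x * y * star x * star y) *
            star (x ^ 2 * y ^ 2 * star (x ^ 2) * star (y ^ 2)) = g) ∧
    (∀ n : ℕ,
      ∀ g : Matrix (Fin n) (Fin n) ℂ, g ∈ Matrix.specialUnitaryGroup (Fin n) ℂ →
        (∃ s : Multiset ℂ, s ≤ g.charpoly.roots ∧ Odd (Multiset.card s) ∧ s.prod = 1) →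
        ∃ x y : Matrix (Fin n) (Fin n) ℂ,
          x ∈ Matrix.specialUnitaryGroup (Fin n) ℂ ∧
          y ∈ Matrix.specialUnitaryGroup (Fin n) ℂ ∧
          (x * y * star x * star y) * (x ^ 2 * y ^ 2 * star (x ^ 2) * star (y ^ 2)) *
            star (x * y * star x * star y) *
            star (x ^ 2 * y ^ 2 * star (x ^ 2) * star (y ^ 2)) = g) := by
  refine ⟨fun n hn g hg => ?_, fun n g hg hs => ?_⟩
  · refine Pool.Agent.Helper1.SW.main n g hg ⟨g.charpoly.roots, le_rfl, ?_, ?_⟩
    · have h := (IsAlgClosed.splits g.charpoly).natDegree_eq_card_roots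
      rw [Matrix.charpoly_natDegree_eq_dim, Fintype.card_fin] at h
      rw [← h]; exact hn
    · rw [← Matrix.det_eq_prod_roots_charpoly g]
      exact (Matrix.mem_specialUnitaryGroup_iff.mp hg).2
  · obtain ⟨s, h1, h2, h3⟩ := hs
    exact Pool.Agent.Helper1.SW.main n g hg ⟨s, h1, h2, h3⟩

end Pool.Agent.Results.MP_88e1a1_al.OddOrder
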